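import Pool.Agent.H33.SMS.Targets
import Pool.Agent.H72.BF.Defs

/-!
Row BKR: Baker's theorem for the logarithms of the primes.
-/

set_option autoImplicit false

namespace Pool.Agent.H47.SMS

open Pool.Agent.H33.SMS Polynomial

theorem algB_int (H : ℝ) (hH : 2 ≤ H) (b : ℤ) (hb : |(b : ℝ)| ≤ H) :
    Pool.Agent.H72.BF.AlgB 1 H (b : ℂ) := by
  refine ⟨X - C b, X_sub_C_ne_zero b, (natDegree_X_sub_C b).le, ?_, ?_⟩
  · intro i
    rw [coeff_sub, coeff_X, coeff_C]
    rcases Nat.lt_or_ge i 1 with h | h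
    · have : i = 0 := by omega
      subst this
      simpa using hb
    · rcases Nat.lt_or_ge 1 i with h1 | h1
      · rw [if_neg (by omega), if_neg (by omega)]
        simp
        linarith
      · have : i = 1 := by omega
        subst this
        simp
        linarith
  · simp

theorem pf_BKR (h : T_LIP) (hB : Pool.Agent.H72.BF.BakerFeldman) : T_BKR := by
  intro s
  set en : Fin (Pr s).card ≃ Pr s := (Pr s).equivFin.symm with hen
  set lam : Fin (Pr s).card → ℂ := fun j => ((Real.log ((en j : ℕ) : ℝ) : ℝ) : ℂ) with hlam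
  have hlin : LinearIndependent ℚ lam := (h s).comp en en.injective
  have hpp : ∀ j, ((en j : ℕ)).Prime := fun j => (Finset.mem_filter.mp (en j).2).2
  have halg : ∀ j, IsAlgebraic ℚ (Complex.exp (lam j)) := by
    intro j
    have hp : (0 : ℝ) < ((en j : ℕ) : ℝ) := by exact_mod_cast (hpp j).pos
    have : Complex.exp (lam j) = ((en j : ℕ) : ℂ) := by
      rw [hlam]
      simp only
      rw [← Complex.ofReal_exp, Real.exp_log hp]
      simp
    rw [this]
    exact isAlgebraic_natCast (en j : ℕ)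
  obtain ⟨C, hC, hbd⟩ := hB (Pr s).card lam hlin halg 1
  refine ⟨C, hC, fun H e hH he hne => ?_⟩
  have h1 := hbd H hH 0 (fun j => ((e (en j : ℕ) : ℤ) : ℂ))
    (by
      have := algB_int H hH 0 (by simp; linarith)
      simpa using this)
    (fun j => algB_int H hH _ (he _))
    (by
      rintro ⟨-, hb⟩
      obtain ⟨p, hp, hep⟩ := hne
      have h2 := congrFun hb ((Pr s).equivFin ⟨p, hp⟩)
      simp only [hen, Equiv.symm_apply_apply, Pi.zero_apply, Int.cast_eq_zero] at h2
      exact hep h2)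
  have h3 : (0 : ℂ) + ∑ j, ((e (en j : ℕ) : ℤ) : ℂ) * lam j =
      ((∑ p ∈ Pr s, (e p : ℝ) * Real.log p : ℝ) : ℂ) := by
    rw [zero_add, ← Finset.sum_coe_sort (Pr s) (fun p => (e p : ℝ) * Real.log p),
      ← Equiv.sum_comp en, Complex.ofReal_sum]
    refine Finset.sum_congr rfl fun j _ => ?_
    rw [Complex.ofReal_mul, Complex.ofReal_intCast]
  rw [h3, Complex.norm_real, Real.norm_eq_abs] at h1
  exact h1

end Pool.Agent.H47.SMS
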