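import Pool.Agent.H33.SMS.Targets

/-!
Row LGF: the logarithm of a quotient of smooth numbers.
-/

set_option autoImplicit false

namespace Pool.Agent.H47.SMS

open Pool.Agent.H33.SMS

theorem log_smooth (s a : ℕ) (ha : 0 < a) (h : ∀ p, p.Prime → p ∣ a → p ≤ s) :
    Real.log a = ∑ p ∈ Pr s, ((padicValNat p a : ℕ) : ℝ) * Real.log p := by
  have h1 : a = ∏ p ∈ a.primeFactors, p ^ a.factorization p :=
    (Nat.prod_factorization_pow_eq_self ha.ne').symm
  have h2 : Real.log a = ∑ p ∈ a.primeFactors, ((padicValNat p a : ℕ) : ℝ) * Real.log p := by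
    conv_lhs => rw [h1]
    rw [Nat.cast_prod, Real.log_prod]
    · refine Finset.sum_congr rfl fun p hp => ?_
      rw [Nat.cast_pow, Real.log_pow, Nat.factorization_def a (Nat.prime_of_mem_primeFactors hp)]
    · intro p hp
      have := (Nat.prime_of_mem_primeFactors hp).pos
      positivity
  rw [h2]
  refine Finset.sum_subset ?_ ?_
  · intro p hp
    have hpp := Nat.prime_of_mem_primeFactors hp
    have := h p hpp (Nat.dvd_of_mem_primeFactors hp)
    exact Finset.mem_filter.mpr ⟨Finset.mem_range.mpr (by omega), hpp⟩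
  · intro p hp hpn
    have hpp := (Finset.mem_filter.mp hp).2
    have : ¬ p ∣ a := fun hd => hpn (Nat.mem_primeFactors.mpr ⟨hpp, hd, ha.ne'⟩)
    rw [padicValNat.eq_zero_of_not_dvd this]
    simp

theorem pf_LGF : T_LGF := by
  intro s a b ha hb h
  rw [log_smooth s a ha (fun p hp hd => h p hp (hd.mul_right b)),
    log_smooth s b hb (fun p hp hd => h p hp (hd.mul_left a)), ← Finset.sum_sub_distrib]
  refine Finset.sum_congr rfl fun p _ => ?_
  rw [Int.cast_sub, Int.cast_natCast, Int.cast_natCast]
  ring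

end Pool.Agent.H47.SMS
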